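import Mathlib
import Pool.Agent.H363R3.KF.A1

/-! # (STAR), (SUMD): simplicial star of a generic finite family of vectors (helper321, after
helper377's COVER of the starting library) -/

set_option autoImplicit false

open MeasureTheory Filter Topology
open scoped ENNReal Pointwise Matrix

namespace TH321.MH

variable {m : ℕ} {ι : Type} [Fintype ι]

/-- the polar polytope of the family `W` -/
def Q (W : ι → Fin m → ℝ) : Set (Fin m → ℝ) := {η | ∀ j, η ⬝ᵥ W j ≤ 1}

/-- tight constraints -/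
noncomputable def T (W : ι → Fin m → ℝ) (η : Fin m → ℝ) : Finset ι :=
  by classical exact Finset.univ.filter fun j => η ⬝ᵥ W j = 1

/-- genericity: at most `m` tight constraints at every point of the polar polytope -/
def Gen (W : ι → Fin m → ℝ) : Prop := ∀ η ∈ Q W, (T W η).card ≤ m

/-- the tight constraints determine the point -/
def Sp (W : ι → Fin m → ℝ) (η : Fin m → ℝ) : Prop :=
  ∀ ζ : Fin m → ℝ, (∀ j ∈ T W η, ζ ⬝ᵥ W j = 0) → ζ = 0

lemma mem_T {W : ι → Fin m → ℝ} {η : Fin m → ℝ} {j : ι} :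
    j ∈ T W η ↔ η ⬝ᵥ W j = 1 := by simp [T]

lemma small (W : ι → Fin m → ℝ) (η ζ : Fin m → ℝ) (hη : η ∈ Q W)
    (h : ∀ j ∈ T W η, ζ ⬝ᵥ W j ≤ 0) :
    ∃ ε : ℝ, 0 < ε ∧ ∀ s : ℝ, 0 ≤ s → s ≤ ε → η + s • ζ ∈ Q W := by
  have key : ∀ j, ∃ ε : ℝ, 0 < ε ∧ ∀ s : ℝ, 0 ≤ s → s ≤ ε → (η + s • ζ) ⬝ᵥ W j ≤ 1 := by
    intro j
    have e1 : ∀ s : ℝ, (η + s • ζ) ⬝ᵥ W j = η ⬝ᵥ W j + s * (ζ ⬝ᵥ W j) := by
      intro s
      rw [add_dotProduct, smul_dotProduct, smul_eq_mul]
    set a := η ⬝ᵥ W j with ha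
    set z := ζ ⬝ᵥ W j with hz
    have hpos : 0 < |z| + 1 := by positivity
    by_cases hj : a = 1
    · have hza : z ≤ 0 := h j (mem_T.2 hj)
      refine ⟨1, one_pos, fun s hs0 _ => ?_⟩
      rw [e1, hj]
      have : s * z ≤ 0 := mul_nonpos_of_nonneg_of_nonpos hs0 hza
      linarith
    · have hlt : a < 1 := lt_of_le_of_ne (hη j) hj
      have hg : 0 < 1 - a := by linarith
      refine ⟨(1 - a) / (|z| + 1), by positivity, fun s hs0 hs => ?_⟩
      rw [e1]
      have hs' : s * |z| ≤ 1 - a := by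
        have : s * (|z| + 1) ≤ 1 - a := by
          calc s * (|z| + 1) ≤ (1 - a) / (|z| + 1) * (|z| + 1) := by gcongr
            _ = 1 - a := by field_simp
        nlinarith
      have : s * z ≤ s * |z| := by gcongr; exact le_abs_self z
      linarith
  choose ε hε using key
  rcases isEmpty_or_nonempty ι with hN | hN
  · exact ⟨1, one_pos, fun s _ _ j => (hN.false j).elim⟩
  · obtain ⟨j0, hj0⟩ := Finite.exists_min ε
    exact ⟨ε j0, (hε j0).1, fun s hs0 hs j => (hε j).2 s hs0 (hs.trans (hj0 j))⟩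

omit [Fintype ι] in
lemma Q_closed (W : ι → Fin m → ℝ) : IsClosed (Q W) := by
  have : Q W = ⋂ j, {η : Fin m → ℝ | η ⬝ᵥ W j ≤ 1} := by
    ext η; simp [Q]
  rw [this]
  refine isClosed_iInter fun j => isClosed_le ?_ continuous_const
  exact Continuous.dotProduct continuous_id continuous_const

/-- if the tight constraints of a maximiser do not determine it, there is another maximiser with
more tight constraints -/
lemma step (W : ι → Fin m → ℝ) (hb : Bornology.IsBounded (Q W)) (x η : Fin m → ℝ)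
    (hη : η ∈ Q W) (hmax : ∀ η' ∈ Q W, η' ⬝ᵥ x ≤ η ⬝ᵥ x) (hS : ¬ Sp W η) :
    ∃ η' ∈ Q W, (∀ η'' ∈ Q W, η'' ⬝ᵥ x ≤ η' ⬝ᵥ x) ∧ (T W η).card < (T W η').card := by
  unfold Sp at hS
  push Not at hS
  obtain ⟨ζ, hζ, hζ0⟩ := hS
  have hx : ζ ⬝ᵥ x = 0 := by
    obtain ⟨ε, hε, h1⟩ := small W η ζ hη (fun j hj => by rw [hζ j hj])
    obtain ⟨ε', hε', h2⟩ := small W η (-ζ) hη
      (fun j hj => by rw [neg_dotProduct, hζ j hj]; simp)
    have a1 := hmax _ (h1 ε hε.le le_rfl)
    have a2 := hmax _ (h2 ε' hε'.le le_rfl)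
    rw [add_dotProduct, smul_dotProduct, smul_eq_mul] at a1 a2
    rw [neg_dotProduct] at a2
    apply le_antisymm <;> nlinarith
  -- the compact set of parameters
  set C : Set ℝ := {s : ℝ | 0 ≤ s ∧ η + s • ζ ∈ Q W} with hC
  have hCc : IsClosed C := by
    refine isClosed_Ici.inter ?_
    exact (Q_closed W).preimage (by fun_prop : Continuous fun s : ℝ => η + s • ζ)
  have hCb : Bornology.IsBounded C := by
    obtain ⟨R, hR⟩ := hb.exists_norm_le
    have hn : 0 < ‖ζ‖ := norm_pos_iff.2 hζ0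
    rw [isBounded_iff_forall_norm_le]
    refine ⟨(R + ‖η‖) / ‖ζ‖, fun s hs => ?_⟩
    rw [le_div_iff₀ hn]
    calc ‖s‖ * ‖ζ‖ = ‖s • ζ‖ := (norm_smul _ _).symm
      _ = ‖(η + s • ζ) - η‖ := by congr 1; abel
      _ ≤ ‖η + s • ζ‖ + ‖η‖ := norm_sub_le _ _
      _ ≤ R + ‖η‖ := by gcongr; exact hR _ hs.2
  have hCk : IsCompact C := Metric.isCompact_of_isClosed_isBounded hCc hCb
  have hCn : C.Nonempty := ⟨0, le_rfl, by simpa using hη⟩
  obtain ⟨s, hs⟩ := hCk.exists_isGreatest hCn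
  refine ⟨η + s • ζ, hs.1.2, ?_, ?_⟩
  · intro η'' h''
    rw [add_dotProduct, smul_dotProduct, hx, smul_zero, add_zero]
    exact hmax η'' h''
  · have hsub : T W η ⊆ T W (η + s • ζ) := by
      intro j hj
      rw [mem_T] at hj ⊢
      rw [add_dotProduct, smul_dotProduct, hζ j (mem_T.2 hj), smul_zero, add_zero]
      exact hj
    apply Finset.card_lt_card
    rw [Finset.ssubset_iff_subset_ne]
    refine ⟨hsub, fun heq => ?_⟩
    obtain ⟨ε, hε, h1⟩ := small W (η + s • ζ) ζ hs.1.2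
      (fun j hj => by rw [hζ j (heq ▸ hj)])
    have h2 : s + ε ∈ C := by
      refine ⟨by linarith [hs.1.1], ?_⟩
      have := h1 ε hε.le le_rfl
      rwa [add_assoc, ← add_smul] at this
    have := hs.2 h2
    linarith

lemma exists_vertex (W : ι → Fin m → ℝ) (hG : Gen W) (hb : Bornology.IsBounded (Q W))
    (x : Fin m → ℝ) :
    ∃ η ∈ Q W, (∀ η' ∈ Q W, η' ⬝ᵥ x ≤ η ⬝ᵥ x) ∧ Sp W η := by
  have hk : IsCompact (Q W) := Metric.isCompact_of_isClosed_isBounded (Q_closed W) hb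
  have hn : (Q W).Nonempty := ⟨0, fun j => by simp⟩
  obtain ⟨η0, h0, h0'⟩ := hk.exists_isMaxOn hn
    (Continuous.dotProduct continuous_id continuous_const : Continuous fun η : Fin m → ℝ =>
      η ⬝ᵥ x).continuousOn
  have key : ∀ d : ℕ, ∀ η ∈ Q W, (∀ η' ∈ Q W, η' ⬝ᵥ x ≤ η ⬝ᵥ x) → m - (T W η).card = d →
      ∃ η ∈ Q W, (∀ η' ∈ Q W, η' ⬝ᵥ x ≤ η ⬝ᵥ x) ∧ Sp W η := by
    intro d
    induction d using Nat.strong_induction_on with
    | _ d ih =>
      intro η hη hmax hd
      by_cases hS : Sp W η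
      · exact ⟨η, hη, hmax, hS⟩
      · obtain ⟨η', h1, h2, h3⟩ := step W hb x η hη hmax hS
        have h4 : (T W η').card ≤ m := hG η' h1
        exact ih (m - (T W η').card) (by omega) η' h1 h2 rfl
  exact key _ η0 h0 (fun η' h => h0' h) rfl

lemma card_T (W : ι → Fin m → ℝ) (hG : Gen W) (η : Fin m → ℝ) (hη : η ∈ Q W) (h : Sp W η) :
    (T W η).card = m := by
  refine le_antisymm (hG η hη) ?_
  let f : (Fin m → ℝ) →ₗ[ℝ] (T W η → ℝ) :=
    { toFun := fun ζ j => ζ ⬝ᵥ W j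
      map_add' := fun a b => by ext j; simp [add_dotProduct]
      map_smul' := fun c a => by ext j; simp [smul_dotProduct] }
  have hf : Function.Injective f := by
    rw [injective_iff_map_eq_zero]
    intro ζ hζ
    refine h ζ fun j hj => ?_
    exact congrFun hζ ⟨j, hj⟩
  have := LinearMap.finrank_le_finrank_of_injective hf
  simpa using this

/-- the simplicial star of the family `W`: cells `k`, with vertices `W (J k i)` and facet
functionals `η k` -/
structure Star (W : ι → Fin m → ℝ) (κ : Type) (J : κ → Fin m → ι) (η : κ → Fin m → ℝ) :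
    Prop where
  inj : Function.Injective η
  det : ∀ k, (Matrix.of fun i l => W (J k i) l).det ≠ 0
  feas : ∀ k j, η k ⬝ᵥ W j ≤ 1
  tight : ∀ k j, η k ⬝ᵥ W j = 1 ↔ j ∈ Set.range (J k)
  cover : ∀ x : Fin m → ℝ, ∃ k, ∃ c : Fin m → ℝ, (∀ i, 0 ≤ c i) ∧ x = ∑ i, c i • W (J k i)

/-- (STAR) a generic family whose polar polytope is bounded has a finite simplicial star -/
theorem star (W : ι → Fin m → ℝ) (hG : Gen W) (hb : Bornology.IsBounded (Q W)) :
    ∃ (κ : Type) (_ : Fintype κ) (J : κ → Fin m → ι) (η : κ → Fin m → ℝ), Star W κ J η := by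
  classical
  let κ : Type := {η : Fin m → ℝ // η ∈ Q W ∧ Sp W η}
  have hfin : Finite κ := by
    let f : κ → Finset ι := fun η => T W η.1
    apply Finite.of_injective f
    intro η η' heq
    apply Subtype.ext
    have hsub : ∀ j ∈ T W η.1, (η.1 - η'.1) ⬝ᵥ W j = 0 := by
      intro j hj
      have h1 : j ∈ T W η'.1 := by
        have : f η = f η' := heq
        simp only [f] at this
        rw [← this]; exact hj
      rw [sub_dotProduct, mem_T.1 hj, mem_T.1 h1, sub_self]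
    exact sub_eq_zero.1 (η.2.2 _ hsub)
  have : Fintype κ := Fintype.ofFinite κ
  have hcard : ∀ η : κ, Fintype.card (T W η.1) = Fintype.card (Fin m) := by
    intro η
    rw [Fintype.card_coe, card_T W hG η.1 η.2.1 η.2.2, Fintype.card_fin]
  let e : ∀ η : κ, Fin m ≃ T W η.1 := fun η => (Fintype.equivOfCardEq (hcard η)).symm
  let J : κ → Fin m → ι := fun η i => (e η i : ι)
  have hJ1 : ∀ (η : κ) (i : Fin m), η.1 ⬝ᵥ W (J η i) = 1 := fun η i => mem_T.1 (e η i).2
  have hJr : ∀ (η : κ) (j : ι), j ∈ T W η.1 → ∃ i, J η i = j := by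
    intro η j hj
    refine ⟨(e η).symm ⟨j, hj⟩, ?_⟩
    simp [J]
  have hdet : ∀ η : κ, (Matrix.of fun i l => W (J η i) l).det ≠ 0 := by
    intro η hd
    obtain ⟨v, hv0, hv⟩ := Matrix.exists_mulVec_eq_zero_iff.2 hd
    apply hv0
    refine η.2.2 v fun j hj => ?_
    obtain ⟨i, hi⟩ := hJr η j hj
    have h1 := congrFun hv i
    rw [Matrix.mulVec, dotProduct_comm] at h1
    rw [← hi]
    exact h1
  refine ⟨κ, inferInstance, J, fun η => η.1, ?_⟩
  refine ⟨Subtype.val_injective, hdet, ?_, ?_, ?_⟩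
  · intro η j
    exact η.2.1 j
  · intro η j
    constructor
    · intro h
      obtain ⟨i, hi⟩ := hJr η j (mem_T.2 h)
      exact ⟨i, hi⟩
    · rintro ⟨i, rfl⟩
      exact hJ1 η i
  · intro x
    obtain ⟨η, hη, hmax, hS⟩ := exists_vertex W hG hb x
    set k : κ := ⟨η, hη, hS⟩ with hk
    set A : Matrix (Fin m) (Fin m) ℝ := Matrix.of fun l i => W (J k i) l with hA
    have hAd : A.det ≠ 0 := by
      rw [← Matrix.det_transpose]
      exact hdet k
    have hu : IsUnit A.det := isUnit_iff_ne_zero.2 hAd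
    refine ⟨k, A⁻¹ *ᵥ x, ?_, ?_⟩
    · intro i
      by_contra hneg
      push Not at hneg
      -- the dual vector
      set w : Fin m → ℝ := fun l => A⁻¹ i l with hw
      have hwx : w ⬝ᵥ x < 0 := hneg
      have hwc : ∀ l, w ⬝ᵥ W (J k l) = if i = l then 1 else 0 := by
        intro l
        have h1 : (A⁻¹ * A) i l = w ⬝ᵥ (fun p => A p l) := rfl
        have h2 : (fun p => A p l) = W (J k l) := by ext p; simp [A]
        rw [← h2, ← h1, Matrix.nonsing_inv_mul _ hu, Matrix.one_apply]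
      obtain ⟨ε, hε, h1⟩ := small W η (-w) hη (by
        intro j hj
        obtain ⟨l, hl⟩ := hJr k j hj
        rw [neg_dotProduct, ← hl, hwc]
        split_ifs <;> norm_num)
      have h4 := hmax _ (h1 ε hε.le le_rfl)
      rw [add_dotProduct, smul_dotProduct, neg_dotProduct, smul_eq_mul] at h4
      nlinarith
    · have h5 : A *ᵥ (A⁻¹ *ᵥ x) = x := by
        rw [Matrix.mulVec_mulVec, Matrix.mul_nonsing_inv _ hu, Matrix.one_mulVec]
      conv_lhs => rw [← h5]
      funext l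
      rw [Finset.sum_apply, Matrix.mulVec, dotProduct]
      refine Finset.sum_congr rfl fun i _ => ?_
      simp [A, mul_comm]

omit [Fintype ι] in
theorem Star.half {W : ι → Fin m → ℝ} {κ : Type} {J : κ → Fin m → ι} {η : κ → Fin m → ℝ}
    (hS : Star W κ J η) (k : κ) {x : Fin m → ℝ} (hx : x ∈ convexHull ℝ (Set.range W)) :
    η k ⬝ᵥ x ≤ 1 := by
  have hconv : Convex ℝ {x : Fin m → ℝ | η k ⬝ᵥ x ≤ 1} := by
    intro x hx y hy a b ha hb hab
    rw [Set.mem_ofPred_eq] at hx hy ⊢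
    rw [dotProduct_add, dotProduct_smul, dotProduct_smul, smul_eq_mul, smul_eq_mul]
    nlinarith
  refine convexHull_min ?_ hconv hx
  rintro z ⟨j, rfl⟩
  exact hS.feas k j

/-- (SUMD) -/
theorem Star.sumd {W : ι → Fin m → ℝ} {κ : Type} [Fintype κ] {J : κ → Fin m → ι}
    {η : κ → Fin m → ℝ} (hS : Star W κ J η) :
    m.factorial * volume (convexHull ℝ (Set.range W)) ≤
      ∑ k, ENNReal.ofReal |(Matrix.of fun i l => W (J k i) l).det| := by
  set Z : κ → Set (Fin m → ℝ) := fun k => {z : Fin m → ℝ | ∃ a : Fin m → ℝ, (∀ i, 0 ≤ a i) ∧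
    ∑ i, a i ≤ 1 ∧ z = ∑ i, a i • W (J k i)} with hZ
  have hsub : convexHull ℝ (Set.range W) ⊆ ⋃ k, Z k := by
    intro x hx
    obtain ⟨k, c, hc, hxc⟩ := hS.cover x
    rw [Set.mem_iUnion]
    refine ⟨k, c, hc, ?_, hxc⟩
    have h1 : η k ⬝ᵥ x ≤ 1 := hS.half k hx
    have h2 : η k ⬝ᵥ x = ∑ i, c i := by
      rw [hxc, dotProduct_sum]
      refine Finset.sum_congr rfl fun i _ => ?_
      rw [dotProduct_smul, (hS.tight k (J k i)).2 ⟨i, rfl⟩, smul_eq_mul, mul_one]
    rw [← h2]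
    exact h1
  have hvol : ∀ k, volume (Z k) ≤
      ENNReal.ofReal (|(Matrix.of fun i l => W (J k i) l).det| / m.factorial) := by
    intro k
    exact H363KF.A1 m (fun i l => W (J k i) l)
  calc (m.factorial : ℝ≥0∞) * volume (convexHull ℝ (Set.range W))
      ≤ m.factorial * ∑ k, volume (Z k) := by
        refine mul_le_mul_right ((measure_mono hsub).trans ?_) _
        exact measure_iUnion_fintype_le _ _
    _ ≤ m.factorial * ∑ k, ENNReal.ofReal (|(Matrix.of fun i l => W (J k i) l).det| / m.factorial) :=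
        mul_le_mul_right (Finset.sum_le_sum fun k _ => hvol k) _
    _ = ∑ k, ENNReal.ofReal |(Matrix.of fun i l => W (J k i) l).det| := by
        rw [Finset.mul_sum]
        refine Finset.sum_congr rfl fun k _ => ?_
        have hf : (0 : ℝ) < m.factorial := by exact_mod_cast m.factorial_pos
        have h1 : (m.factorial : ℝ≥0∞) = ENNReal.ofReal (m.factorial : ℝ) := by
          rw [ENNReal.ofReal_natCast]
        rw [h1, ← ENNReal.ofReal_mul hf.le]
        congr 1
        field_simp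

end TH321.MH
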